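import Pool.Agent.H36.MG.SymB

/-!
# One step of the recursion, averaged over the rotations of the boundary condition
-/

set_option autoImplicit false

noncomputable section

namespace Pool.Agent.H36.MG

open MvPolynomial MeasureTheory Pool.Agent.H5R2.ON Pool.Agent.H717R2.ON3
open Pool.Agent.H983R2.ONJ Pool.Agent.Q218.ON
open Pool.Agent.H12R2.ON (rotE rotF rotF_p rotF_k rotF_o rotE_apply)

section

variable {N L : ℕ} [NeZero L] {ι : Type} [Fintype ι]

/-- the mean value of the spin at `p` -/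
def vv (G : Gr (Tor L) ι) (β : ℝ) (Λ : Finset (Tor L)) (η : Conf N L) (p : Tor L) : EN N :=
  (ZZ G β Λ η)⁻¹ • ∫ S, Real.exp (β * enG G (splice Λ S η)) •
    ((splice Λ S η p : Sph N) : EN N) ∂(prior N L)

theorem gH_vv (hN : N ≠ 0) (G : Gr (Tor L) ι) (β : ℝ) (Λ : Finset (Tor L)) (η : Conf N L)
    (p : Tor L) (Q : EN N ≃ₗᵢ[ℝ] EN N) (j : Fin N) :
    gH (fun S => β * enG G S) Λ (Pool.Agent.Q218.ON.rotC Q η) (fun S => cc j (S p)) =
      (Q (vv G β Λ η p)) j := by
  have hcs : Continuous fun S : Conf N L => splice Λ S η := GIB1.continuous_splice Λ η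
  have hint : Integrable (fun S : Conf N L => Real.exp (β * enG G (splice Λ S η)) •
      ((splice Λ S η p : Sph N) : EN N)) (prior N L) := by
    have c1 : Continuous fun S : Conf N L => Real.exp (β * enG G (splice Λ S η)) :=
      Real.continuous_exp.comp (continuous_const.mul ((Aux221.continuous_enG G).comp hcs))
    have c2 : Continuous fun S : Conf N L => ((splice Λ S η p : Sph N) : EN N) :=
      continuous_subtype_val.comp ((continuous_apply p).comp hcs)
    exact integrable_prior N L (c1.smul c2)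
  have h1 : gH (fun S => β * enG G S) Λ (Pool.Agent.Q218.ON.rotC Q η) (fun S => cc j (S p)) =
      (∫ S, (Q ((splice Λ S η p : Sph N) : EN N)) j *
        Real.exp (β * enG G (splice Λ S η)) ∂(prior N L)) / ZZ G β Λ η := by
    have h2 := cov hN Q Λ η (fun S : Conf N L => cc j (S p) * Real.exp (β * enG G S))
    have h3 := ZZ_rot hN G β Λ η Q
    unfold gH
    unfold ZZ at h3 ⊢
    simp only
    rw [h3, ← h2]
    congr 1
    refine integral_congr_ae (Filter.Eventually.of_forall fun S => ?_)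
    simp only
    rw [enG_rotC]
    rfl
  rw [h1]
  unfold vv
  have h4 := ((EuclideanSpace.proj j : EN N →L[ℝ] ℝ).comp
    (Q.toContinuousLinearEquiv : EN N →L[ℝ] EN N)).integral_comp_comm hint
  rw [map_smul, PiLp.smul_apply, smul_eq_mul, div_eq_inv_mul]
  congr 1
  refine Eq.trans ?_ h4
  refine integral_congr_ae (Filter.Eventually.of_forall fun S => ?_)
  simp only [map_smul, smul_eq_mul]
  rw [mul_comm]
  rfl

theorem cont_comp {c : Fin 3 → Fin N} (v : EN N) (j : Fin N) :
    Continuous fun U : HG c => iso (U : OG N) v j := by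
  have h : Continuous fun U : HG c => iso (U : OG N) v :=
    continuous_iso.comp (continuous_subtype_val.prodMk continuous_const)
  exact (EuclideanSpace.proj j).continuous.comp h

theorem int_comp {c : Fin 3 → Fin N} {f : HG c → ℝ} (hf : Continuous f) :
    Integrable f (hh c) := by
  haveI := hh_prob c
  haveI := compactHG c
  obtain ⟨B, hB⟩ := (isCompact_univ (X := HG c)).exists_bound_of_continuousOn hf.continuousOn
  exact Integrable.of_bound hf.measurable.aestronglyMeasurable B
    (Filter.Eventually.of_forall fun q => hB q (Set.mem_univ _))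

/-- the mean square of one component -/
theorem mean_sq {c : Fin 3 → Fin N} (hc : Function.Injective c) (v : EN N) :
    3 * ∫ U : HG c, (iso (U : OG N) v (c 0)) ^ 2 ∂(hh c) = ∑ a, (v (c a)) ^ 2 := by
  haveI := hh_prob c
  haveI := hh_left c
  have h01 : c 0 ≠ c 1 := fun h => absurd (hc h) (by decide)
  have h20 : c 2 ≠ c 0 := fun h => absurd (hc h) (by decide)
  have e1 : ∫ U : HG c, (iso (U : OG N) v (c 1)) ^ 2 ∂(hh c) =
      ∫ U : HG c, (iso (U : OG N) v (c 0)) ^ 2 ∂(hh c) := by
    rw [← integral_mul_left_eq_self (μ := hh c) (fun U : HG c => (iso (U : OG N) v (c 0)) ^ 2)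
      (rr c 0 1 h01 (Real.pi / 2))]
    refine integral_congr_ae (Filter.Eventually.of_forall fun U => ?_)
    simp only
    rw [Subgroup.coe_mul, iso_mul, iso_rr, rotF_p, Real.cos_pi_div_two, Real.sin_pi_div_two]
    ring
  have e2 : ∫ U : HG c, (iso (U : OG N) v (c 2)) ^ 2 ∂(hh c) =
      ∫ U : HG c, (iso (U : OG N) v (c 0)) ^ 2 ∂(hh c) := by
    rw [← integral_mul_left_eq_self (μ := hh c) (fun U : HG c => (iso (U : OG N) v (c 0)) ^ 2)
      (rr c 2 0 h20 (Real.pi / 2))]
    refine integral_congr_ae (Filter.Eventually.of_forall fun U => ?_)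
    simp only
    rw [Subgroup.coe_mul, iso_mul, iso_rr, rotF_k h20, Real.cos_pi_div_two,
      Real.sin_pi_div_two]
    ring
  have i : ∀ a : Fin 3, Integrable (fun U : HG c => (iso (U : OG N) v (c a)) ^ 2) (hh c) :=
    fun a => int_comp ((cont_comp v (c a)).pow 2)
  have e3 : ∫ U : HG c, ((iso (U : OG N) v (c 0)) ^ 2 + (iso (U : OG N) v (c 1)) ^ 2 +
      (iso (U : OG N) v (c 2)) ^ 2) ∂(hh c) = ∑ a, (v (c a)) ^ 2 := by
    have h : ∀ U : HG c, (iso (U : OG N) v (c 0)) ^ 2 + (iso (U : OG N) v (c 1)) ^ 2 +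
      (iso (U : OG N) v (c 2)) ^ 2 = ∑ a, (v (c a)) ^ 2 := by
      intro U
      rw [← iso_sum hc U v, Fin.sum_univ_three]
    simp only [h, integral_const, probReal_univ, one_smul]
  have e4 := integral_add ((i 0).add (i 1)) (i 2)
  have e5 := integral_add (i 0) (i 1)
  simp only [Pi.add_apply] at e4
  rw [e4, e5, e1, e2] at e3
  rw [← e3]
  ring

end

open Aux993 in
/-- the square of the expectation is at most the expectation of the square -/
theorem gH_sq {N L : ℕ} [NeZero L] (hN0 : N ≠ 0) {H : Conf N L → ℝ} (hHc : Continuous H)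
    (Λ : Finset (Tor L)) (η : Conf N L) {G : Conf N L → ℝ} (hGc : Continuous G) :
    (gH H Λ η (fun S => |G S|)) ^ 2 ≤ gH H Λ η (fun S => G S ^ 2) := by
  obtain ⟨B, hB⟩ := st_bdd hGc
  set s : ℝ := gH H Λ η (fun S => |G S|) with hs
  have hB0 : 0 ≤ B := (abs_nonneg _).trans (hB (fun _ => η 0))
  have hG2B : ∀ S, |G S ^ 2| ≤ B ^ 2 := by
    intro S
    rw [abs_pow]
    exact pow_le_pow_left₀ (abs_nonneg _) (hB S) 2
  -- `2 s |G| ≤ G² + s²`
  have h1 : ∀ S, (2 * s) * |G S| ≤ G S ^ 2 + s ^ 2 := by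
    intro S
    have h5 : 0 ≤ (|G S| - s) ^ 2 := sq_nonneg _
    have h6 : |G S| ^ 2 = G S ^ 2 := sq_abs _
    nlinarith
  have hm1 : Measurable (fun S => G S ^ 2) := (hGc.pow 2).measurable
  have hsum := gH_add hN0 hHc Λ η (F := fun S => G S ^ 2)
    (G := fun _ => s ^ 2) hm1 measurable_const (B ^ 2 + s ^ 2)
    (fun S => (hG2B S).trans (by linarith [sq_nonneg s]))
    (fun S => by rw [abs_of_nonneg (sq_nonneg s)]; linarith [sq_nonneg B])
  have hmono := gH_mono hN0 hHc Λ η (F := fun S => (2 * s) * |G S|)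
    (G := fun S => G S ^ 2 + s ^ 2) (hGc.abs.measurable.const_mul _)
    (hm1.add measurable_const)
    (|2 * s| * B + (B ^ 2 + s ^ 2))
    (fun S => by
      rw [abs_mul, abs_abs]
      have := mul_le_mul_of_nonneg_left (hB S) (abs_nonneg (2 * s))
      linarith [sq_nonneg s, sq_nonneg B])
    (fun S => by
      refine (abs_add_le _ _).trans ?_
      rw [abs_of_nonneg (sq_nonneg s)]
      have := hG2B S
      have := mul_nonneg (abs_nonneg (2 * s)) hB0
      linarith) h1
  rw [hsum, gH_smul, gH_const hN0 hHc] at hmono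
  nlinarith

open Aux993 in
/-- the averaged core of the recursion for one multigraph coupling -/
theorem sym_core {N L : ℕ} [NeZero L] (hN : 3 ≤ N) {ε : ℝ} (hε : 0 < ε) {ι : Type} [Fintype ι]
    (Gm : Gr (Tor L) ι) (β R m : ℝ) (hRpos : 0 < R) (hm : 0 ≤ m) (p : Tor L) (U : Alg (Tor L))
    (hU : ∀ W : WFun Gm β (ball p R), W.E (X (p, 0)) = W.E (U * X (p, 1)))
    (hU2 : ∀ W : WFun Gm β (ball p R),
      (∀ (g : Fin 3) (F : Alg (Tor L)),
        W.E (Pool.Agent.H717R2.ON3.R (fun _ => 1) g F) = 0) → W.E (U ^ 2) ≤ ε ^ 2)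
    (hloc : ∀ σ σ' : Tor L × Fin 3 → ℝ,
      (∀ x, R / 8 ≤ tnorm (x - p) → ∀ g, σ (x, g) = σ' (x, g)) → eval σ U = eval σ' U)
    (hinf : ∀ (η : Conf N L) (i : Fin N),
      |gH (fun S => β * enG Gm S) (ball p (R / 10)) η (fun S => cc i (S p))| ≤ m)
    (η : Conf N L) (i : Fin N) :
    |gH (fun S => β * enG Gm S) (ball p R) η (fun S => cc i (S p))| ≤ 2 * ε * m := by
  have hN0 : N ≠ 0 := by omega
  have hHc : Continuous (fun S : Conf N L => β * enG Gm S) :=
    (continuous_enG Gm).const_mul β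
  -- the three components
  obtain ⟨c, hc, hc0⟩ : ∃ c : Fin 3 → Fin N, Function.Injective c ∧ c 0 = i := by
    let e : Fin 3 → Fin N := fun j => ⟨j, by omega⟩
    have he : Function.Injective e := fun a b h => Fin.ext (by simpa [e] using h)
    refine ⟨fun j => Equiv.swap (e 0) i (e j), ?_, ?_⟩
    · exact (Equiv.swap (e 0) i).injective.comp he
    · exact Equiv.swap_apply_left _ _
  haveI := hh_prob c
  haveI := prior_isProbabilityMeasure N L hN0
  set H : Conf N L → ℝ := fun S => β * enG Gm S with hH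
  set v : EN N := vv Gm β (ball p R) η p with hv
  -- one rotation
  have key : ∀ A : HG c, (iso (A : OG N) v (c 0)) ^ 2 ≤
      m ^ 2 * ((∫ S, ff Gm β (ball p R) η c (U ^ 2) (A, S) ∂(prior N L)) /
        ZZ Gm β (ball p R) η) := by
    intro A
    set η' : Conf N L := Pool.Agent.Q218.ON.rotC (iso (A : OG N)) η with hη'
    obtain ⟨W, hW⟩ := gH_wfun hN0 Gm β (ball p R) η' c hc
    have hUX := hU W
    set G : Conf N L → ℝ := fun S => eval (pt c S) U with hG
    set F : Conf N L → ℝ := fun S => cc (c 1) (S p) with hF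
    have hGc : Continuous G := st_eval_cont c U
    have hFc : Continuous F := (st_cc_cont _).comp (continuous_apply _)
    obtain ⟨B, hB⟩ := st_bdd hGc
    have e1 : gH H (ball p R) η' (fun S => cc (c 0) (S p)) =
        gH H (ball p R) η' (fun S => G S * F S) := by
      have h1 := hW (X (p, 0))
      have h2 := hW (U * X (p, 1))
      rw [hUX, h2] at h1
      have h3 : (fun S : Conf N L => eval (pt c S) (X (p, (0 : Fin 3)) : Alg (Tor L))) =
          fun S => cc (c 0) (S p) := by
        funext S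
        rw [eval_X]
        rfl
      have h4 : (fun S : Conf N L => eval (pt c S) (U * X (p, (1 : Fin 3)) : Alg (Tor L))) =
          fun S => G S * F S := by
        funext S
        rw [map_mul, eval_X]
        rfl
      rw [h3, h4] at h1
      exact h1.symm
    have e2 : gH H (ball p R) η' (fun S => cc (c 0) (S p)) = iso (A : OG N) v (c 0) :=
      gH_vv hN0 Gm β (ball p R) η p (iso (A : OG N)) (c 0)
    rw [← e2, e1, slice_gH hN0]
    have hsub : ball p (R / 10) ⊆ ball p R := by
      intro z hz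
      unfold ball at hz ⊢
      rw [Finset.mem_filter] at hz ⊢
      exact ⟨hz.1, hz.2.trans (by linarith)⟩
    have h1 := gH_influence hN0 hHc hsub η' hFc hGc.measurable B hB (by
      intro S S' hSS
      refine hloc _ _ fun x hx g => ?_
      have hx' : x ∉ ball p (R / 10) := by
        unfold ball
        rw [Finset.mem_filter]
        intro h
        have := h.2
        linarith
      simp only [pt, hSS x hx']) m (by
      intro η''
      exact hinf η'' (c 1))
    have h2 := gH_sq hN0 hHc (ball p R) η' hGc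
    have h3 : gH H (ball p R) η' (fun S => eval (pt c S) (U ^ 2)) =
        gH H (ball p R) η' (fun S => G S ^ 2) := by
      congr 1
      funext S
      rw [map_pow]
    rw [h3]
    have h4 : (gH H (ball p R) η' (fun S => G S * F S)) ^ 2 ≤
        (m * gH H (ball p R) η' (fun S => |G S|)) ^ 2 := by
      rw [← sq_abs]
      exact pow_le_pow_left₀ (abs_nonneg _) h1 2
    calc (gH H (ball p R) η' (fun S => G S * F S)) ^ 2 ≤
        (m * gH H (ball p R) η' (fun S => |G S|)) ^ 2 := h4
      _ = m ^ 2 * (gH H (ball p R) η' (fun S => |G S|)) ^ 2 := by ring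
      _ ≤ _ := mul_le_mul_of_nonneg_left h2 (sq_nonneg m)
  -- the average
  have hcU := continuous_ff Gm β (ball p R) η c (U ^ 2)
  have i1 : Integrable (fun A : HG c => (iso (A : OG N) v (c 0)) ^ 2) (hh c) :=
    int_comp ((cont_comp v (c 0)).pow 2)
  have i2 : Integrable (fun A : HG c =>
      ∫ S, ff Gm β (ball p R) η c (U ^ 2) (A, S) ∂(prior N L)) (hh c) :=
    (int_prod hN0 hcU).integral_prod_left
  have h1 := integral_mono i1 ((i2.div_const _).const_mul (m ^ 2)) key
  rw [integral_const_mul, integral_div, ← integral_prod _ (int_prod hN0 hcU)] at h1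
  have h2 := hU2 (Wbar hN0 Gm β (ball p R) η c hc) (fun g F =>
    WE_inv hN0 Gm β (ball p R) η hc g F)
  have h3 : (Wbar hN0 Gm β (ball p R) η c hc).E (U ^ 2) =
      (∫ q, ff Gm β (ball p R) η c (U ^ 2) q ∂((hh c).prod (prior N L))) /
        ZZ Gm β (ball p R) η := rfl
  rw [h3] at h2
  have h4 : m ^ 2 * ((∫ q, ff Gm β (ball p R) η c (U ^ 2) q ∂((hh c).prod (prior N L))) /
        ZZ Gm β (ball p R) η) ≤ m ^ 2 * ε ^ 2 := mul_le_mul_of_nonneg_left h2 (sq_nonneg m)
  have h5 := mean_sq hc v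
  have h6 : (v (c 0)) ^ 2 ≤ 3 * (m ^ 2 * ε ^ 2) := by
    rw [Fin.sum_univ_three] at h5
    have a1 := sq_nonneg (v (c 1))
    have a2 := sq_nonneg (v (c 2))
    linarith
  have h7 : gH H (ball p R) η (fun S => cc i (S p)) = v (c 0) := by
    have h8 := gH_vv hN0 Gm β (ball p R) η p (LinearIsometryEquiv.refl ℝ (EN N)) (c 0)
    have h9 : Pool.Agent.Q218.ON.rotC (LinearIsometryEquiv.refl ℝ (EN N)) η = η := by
      funext x
      rfl
    rw [h9, hc0] at h8
    rw [hc0]
    exact h8
  rw [h7]
  have h8 : (v (c 0)) ^ 2 ≤ (2 * ε * m) ^ 2 := by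
    have : 0 ≤ m ^ 2 * ε ^ 2 := by positivity
    nlinarith
  have h9 : 0 ≤ 2 * ε * m := by positivity
  exact abs_le_of_sq_le_sq h8 h9

end Pool.Agent.H36.MG
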