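import Pool.Graph.R_pool_sql_team_seeded_2aa45f1a.Q218.ON.Haar
import Pool.Graph.R_seed8.H983R2.ONJ.Step
import Pool.Graph.R_seed8.H12R2.ON.LocRot

/-!
# The rotations of three components: group, Haar measure
-/

set_option autoImplicit false

noncomputable section

namespace Pool.Agent.H36.MG

open MvPolynomial MeasureTheory Pool.Agent.H5R2.ON Pool.Agent.H717R2.ON3
open Pool.Agent.H983R2.ONJ Pool.Agent.Q218.ON
open Pool.Agent.H12R2.ON (rotE rotF rotF_p rotF_k rotF_o rotE_apply)

/-- isometry of an element of the orthogonal group -/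
abbrev iso {N : ℕ} (U : OG N) : EN N ≃ₗᵢ[ℝ] EN N := Unitary.linearIsometryEquiv U

theorem iso_coe {N : ℕ} (U : OG N) (v : EN N) : iso U v = (U : EN N →L[ℝ] EN N) v := rfl

theorem iso_mul {N : ℕ} (U V : OG N) (v : EN N) : iso (U * V) v = iso U (iso V v) := by
  unfold iso
  rw [map_mul]
  rfl

theorem iso_inv {N : ℕ} (U : OG N) (v : EN N) : iso U⁻¹ (iso U v) = v := by
  rw [← iso_mul, inv_mul_cancel]
  unfold iso
  rw [map_one]
  rfl

/-- the orthogonal transformations which fix the coordinate vectors outside `c` -/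
def HG {N : ℕ} (c : Fin 3 → Fin N) : Subgroup (OG N) where
  carrier := {U | ∀ j, (∀ a, c a ≠ j) →
    iso U (EuclideanSpace.single j (1 : ℝ)) = EuclideanSpace.single j (1 : ℝ)}
  mul_mem' := by
    intro U V hU hV j hj
    rw [iso_mul, hV j hj, hU j hj]
  one_mem' := by
    intro j _
    unfold iso
    rw [map_one]
    rfl
  inv_mem' := by
    intro U hU j hj
    have h := iso_inv U (EuclideanSpace.single j (1 : ℝ))
    rwa [hU j hj] at h

theorem closedHG {N : ℕ} (c : Fin 3 → Fin N) : IsClosed ((HG c : Subgroup (OG N)) : Set (OG N)) := by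
  have h : ((HG c : Subgroup (OG N)) : Set (OG N)) =
      ⋂ j : Fin N, {U | (∀ a, c a ≠ j) →
        iso U (EuclideanSpace.single j (1 : ℝ)) = EuclideanSpace.single j (1 : ℝ)} := by
    ext U
    simp only [Set.mem_iInter]
    rfl
  rw [h]
  refine isClosed_iInter fun j => ?_
  by_cases hj : ∀ a, c a ≠ j
  · simp only [hj, ne_eq, not_false_eq_true, implies_true, forall_const]
    refine isClosed_eq ?_ continuous_const
    exact (continuous_subtype_val (p := fun A => A ∈ unitary (EN N →L[ℝ] EN N))).clm_apply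
      continuous_const
  · have h2 : {U : OG N | (∀ a, c a ≠ j) →
        iso U (EuclideanSpace.single j (1 : ℝ)) = EuclideanSpace.single j (1 : ℝ)} =
        Set.univ := by
      ext U
      simp only [Set.mem_setOf_eq, Set.mem_univ, iff_true]
      intro h
      exact absurd h hj
    rw [h2]
    exact isClosed_univ

theorem compactHG {N : ℕ} (c : Fin 3 → Fin N) : CompactSpace (HG c) := by
  haveI := compactOG N
  exact isCompact_iff_compactSpace.1 (closedHG c).isCompact

/-- the Haar probability measure -/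
def hh {N : ℕ} (c : Fin 3 → Fin N) : Measure (HG c) :=
  haveI := compactHG c
  Measure.haarMeasure ⊤

theorem hh_prob {N : ℕ} (c : Fin 3 → Fin N) : IsProbabilityMeasure (hh c) := by
  haveI := compactHG c
  refine ⟨?_⟩
  have h := Measure.haarMeasure_self (K₀ := (⊤ : TopologicalSpace.PositiveCompacts (HG c)))
  unfold hh
  simpa using h

theorem hh_left {N : ℕ} (c : Fin 3 → Fin N) : (hh c).IsMulLeftInvariant := by
  haveI := compactHG c
  unfold hh
  infer_instance

/-- rotation in the plane of two of the three components -/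
def rr {N : ℕ} (c : Fin 3 → Fin N) (a b : Fin 3) (hab : c a ≠ c b) (t : ℝ) : HG c :=
  ⟨Unitary.linearIsometryEquiv.symm (rotE (c a) (c b) hab t), by
    intro j hj
    unfold iso
    rw [MulEquiv.apply_symm_apply, rotE_apply]
    ext i
    by_cases h1 : i = c a
    · subst h1
      rw [rotF_p]
      simp [hj a, hj b]
    · by_cases h2 : i = c b
      · subst h2
        rw [rotF_k hab]
        simp [hj a, hj b]
      · rw [rotF_o h1 h2]⟩

theorem iso_rr {N : ℕ} (c : Fin 3 → Fin N) (a b : Fin 3) (hab : c a ≠ c b) (t : ℝ) (v : EN N) :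
    iso (rr c a b hab t : OG N) v = rotF (c a) (c b) t v := by
  unfold iso rr
  simp only [MulEquiv.apply_symm_apply]
  rfl

theorem iso_fix {N : ℕ} {c : Fin 3 → Fin N} (U : HG c) (v : EN N) {j : Fin N}
    (hj : ∀ a, c a ≠ j) : (iso (U : OG N) v) j = v j := by
  have h1 := U.2 j hj
  have h2 : inner ℝ (iso (U : OG N) (EuclideanSpace.single j (1 : ℝ))) (iso (U : OG N) v) =
      inner ℝ (EuclideanSpace.single j (1 : ℝ)) v := LinearIsometryEquiv.inner_map_map _ _ _
  rw [h1] at h2
  simpa [EuclideanSpace.inner_single_left] using h2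

theorem iso_sum {N : ℕ} {c : Fin 3 → Fin N} (hc : Function.Injective c) (U : HG c) (v : EN N) :
    ∑ a, (iso (U : OG N) v (c a)) ^ 2 = ∑ a, (v (c a)) ^ 2 := by
  have h1 : ∀ w : EN N, ∑ a, (w (c a)) ^ 2 + ∑ j ∈ (Finset.univ.image c)ᶜ, (w j) ^ 2 =
      ‖w‖ ^ 2 := by
    intro w
    rw [EuclideanSpace.real_norm_sq_eq, ← Finset.sum_add_sum_compl (Finset.univ.image c),
      Finset.sum_image (fun i _ j _ h => hc h)]
  have h2 := h1 v
  have h3 := h1 (iso (U : OG N) v)
  have h4 : ∑ j ∈ (Finset.univ.image c)ᶜ, (iso (U : OG N) v j) ^ 2 =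
      ∑ j ∈ (Finset.univ.image c)ᶜ, (v j) ^ 2 := by
    refine Finset.sum_congr rfl fun j hj => ?_
    rw [Finset.mem_compl, Finset.mem_image] at hj
    rw [iso_fix U v fun a ha => hj ⟨a, Finset.mem_univ _, ha⟩]
  rw [LinearIsometryEquiv.norm_map] at h3
  linarith

end Pool.Agent.H36.MG
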