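import Pool.Agent.H36.MG.SymA

/-!
# The averaged Gibbs functional
-/

set_option autoImplicit false

noncomputable section

namespace Pool.Agent.H36.MG

open MvPolynomial MeasureTheory Pool.Agent.H5R2.ON Pool.Agent.H717R2.ON3
open Pool.Agent.H983R2.ONJ Pool.Agent.Q218.ON
open Pool.Agent.H12R2.ON (rotE rotF rotF_p rotF_k rotF_o rotE_apply)

theorem rotC_splice {N L : ℕ} (Q : EN N ≃ₗᵢ[ℝ] EN N) (Λ : Finset (Tor L)) (S η : Conf N L) :
    Pool.Agent.Q218.ON.rotC Q (splice Λ S η) =
      splice Λ (Pool.Agent.Q218.ON.rotC Q S) (Pool.Agent.Q218.ON.rotC Q η) := by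
  funext x
  unfold Pool.Agent.Q218.ON.rotC splice
  split_ifs <;> rfl

theorem enG_rotC {N L : ℕ} {ι : Type} [Fintype ι] (G : Gr (Tor L) ι) (Q : EN N ≃ₗᵢ[ℝ] EN N)
    (S : Conf N L) : enG G (Pool.Agent.Q218.ON.rotC Q S) = enG G S := by
  unfold enG Pool.Agent.Q218.ON.rotC
  refine Finset.sum_congr rfl fun e _ => ?_
  rw [rot_coe, rot_coe, Q.inner_map_map]

/-- change of variables: rotating all spins -/
theorem cov {N L : ℕ} [NeZero L] (hN : N ≠ 0) (Q : EN N ≃ₗᵢ[ℝ] EN N) (Λ : Finset (Tor L))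
    (η : Conf N L) (Φ : Conf N L → ℝ) :
    ∫ S, Φ (Pool.Agent.Q218.ON.rotC Q (splice Λ S η)) ∂(prior N L) =
      ∫ S, Φ (splice Λ S (Pool.Agent.Q218.ON.rotC Q η)) ∂(prior N L) := by
  have h := (Pool.Agent.Q218.ON.mp_rotC (L := L) hN Q).integral_comp (emb_rotC Q)
    (fun S => Φ (splice Λ S (Pool.Agent.Q218.ON.rotC Q η)))
  rw [← h]
  refine integral_congr_ae (Filter.Eventually.of_forall fun S => ?_)
  simp only
  rw [rotC_splice]

/-- derivative along a path for a general derivation -/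
theorem eval_deriv' {V : Type} (Dv : Derivation ℝ (Alg V) (Alg V))
    (σ : ℝ → V × Fin 3 → ℝ) (t : ℝ)
    (h : ∀ i, HasDerivAt (fun s => σ s i) (eval (σ t) (Dv (X i))) t) (F : Alg V) :
    HasDerivAt (fun s => eval (σ s) F) (eval (σ t) (Dv F)) t := by
  induction F using MvPolynomial.induction_on with
  | C a =>
    simp only [eval_C]
    have : Dv (C a) = 0 := by
      rw [← algebraMap_eq]
      exact Dv.map_algebraMap a
    rw [this, map_zero]
    exact hasDerivAt_const _ _
  | add P Q hP hQ =>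
    simp only [map_add]
    exact hP.add hQ
  | mul_X P i hP =>
    have h1 : Dv (P * X i) = P * Dv (X i) + X i * Dv P := by
      rw [Derivation.leibniz]
      simp only [smul_eq_mul]
    rw [h1]
    simp only [map_mul, map_add, eval_X]
    have := hP.mul (h i)
    refine this.congr_deriv ?_
    ring

variable {N L : ℕ} [NeZero L] {ι : Type} [Fintype ι]

/-- the integrand -/
def ff (G : Gr (Tor L) ι) (β : ℝ) (Λ : Finset (Tor L)) (η : Conf N L) (c : Fin 3 → Fin N)
    (F : Alg (Tor L)) (q : HG c × Conf N L) : ℝ :=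
  eval (pt c (Pool.Agent.Q218.ON.rotC (iso (q.1 : OG N)) (splice Λ q.2 η))) F *
    Real.exp (β * enG G (splice Λ q.2 η))

theorem continuous_iso : Continuous fun q : OG N × EN N => iso q.1 q.2 :=
  (continuous_subtype_val.comp continuous_fst).clm_apply continuous_snd

theorem continuous_rotS {c : Fin 3 → Fin N} (Λ : Finset (Tor L)) (η : Conf N L) :
    Continuous fun q : HG c × Conf N L =>
      Pool.Agent.Q218.ON.rotC (iso (q.1 : OG N)) (splice Λ q.2 η) := by
  refine continuous_pi fun x => ?_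
  refine Continuous.subtype_mk ?_ _
  have h1 : Continuous fun q : HG c × Conf N L => ((splice Λ q.2 η x : Sph N) : EN N) :=
    continuous_subtype_val.comp ((continuous_apply x).comp
      ((GIB1.continuous_splice Λ η).comp continuous_snd))
  have h2 : Continuous fun q : HG c × Conf N L => (q.1 : OG N) :=
    continuous_subtype_val.comp continuous_fst
  exact continuous_iso.comp (h2.prodMk h1)

theorem continuous_ff (G : Gr (Tor L) ι) (β : ℝ) (Λ : Finset (Tor L)) (η : Conf N L)
    (c : Fin 3 → Fin N) (F : Alg (Tor L)) : Continuous (ff G β Λ η c F) := by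
  unfold ff
  refine Continuous.mul ?_ ?_
  · exact (GIB1.continuous_evalpt c F).comp (continuous_rotS Λ η)
  · exact Real.continuous_exp.comp (continuous_const.mul
      ((Aux221.continuous_enG G).comp ((GIB1.continuous_splice Λ η).comp continuous_snd)))

theorem bdd_prod {c : Fin 3 → Fin N} {f : HG c × Conf N L → ℝ} (hf : Continuous f) :
    ∃ B : ℝ, ∀ q, |f q| ≤ B := by
  haveI := compactHG c
  obtain ⟨B, hB⟩ := (isCompact_univ (X := HG c × Conf N L)).exists_bound_of_continuousOn
    hf.continuousOn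
  exact ⟨B, fun q => hB q (Set.mem_univ _)⟩

theorem int_prod (hN : N ≠ 0) {c : Fin 3 → Fin N} {f : HG c × Conf N L → ℝ}
    (hf : Continuous f) : Integrable f ((hh c).prod (prior N L)) := by
  haveI := hh_prob c
  haveI := prior_isProbabilityMeasure N L hN
  obtain ⟨B, hB⟩ := bdd_prod hf
  exact Integrable.of_bound hf.measurable.aestronglyMeasurable B
    (Filter.Eventually.of_forall fun q => hB q)

theorem left_inv (hN : N ≠ 0) {c : Fin 3 → Fin N} {f : HG c × Conf N L → ℝ}
    (hf : Continuous f) (r : HG c) :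
    ∫ q, f (r * q.1, q.2) ∂((hh c).prod (prior N L)) = ∫ q, f q ∂((hh c).prod (prior N L)) := by
  haveI := hh_prob c
  haveI := hh_left c
  haveI := prior_isProbabilityMeasure N L hN
  have h1 : Continuous fun q : HG c × Conf N L => f (r * q.1, q.2) :=
    hf.comp ((continuous_const.mul continuous_fst).prodMk continuous_snd)
  rw [integral_prod _ (int_prod hN h1), integral_prod _ (int_prod hN hf)]
  exact integral_mul_left_eq_self (fun U => ∫ S, f (U, S) ∂(prior N L)) r

/-- the partition function -/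
def ZZ (G : Gr (Tor L) ι) (β : ℝ) (Λ : Finset (Tor L)) (η : Conf N L) : ℝ :=
  ∫ S, Real.exp (β * enG G (splice Λ S η)) ∂(prior N L)

/-- the averaged functional -/
def WE (hN : N ≠ 0) (G : Gr (Tor L) ι) (β : ℝ) (Λ : Finset (Tor L)) (η : Conf N L)
    (c : Fin 3 → Fin N) : Alg (Tor L) →ₗ[ℝ] ℝ where
  toFun F := (∫ q, ff G β Λ η c F q ∂((hh c).prod (prior N L))) / ZZ G β Λ η
  map_add' F F' := by
    rw [← add_div, ← integral_add (int_prod hN (continuous_ff G β Λ η c F))
      (int_prod hN (continuous_ff G β Λ η c F'))]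
    congr 1
    refine integral_congr_ae (Filter.Eventually.of_forall fun S => ?_)
    simp only [ff, map_add, add_mul]
  map_smul' r F := by
    simp only [RingHom.id_apply, smul_eq_mul]
    rw [← mul_div_assoc, ← integral_const_mul]
    congr 1
    refine integral_congr_ae (Filter.Eventually.of_forall fun S => ?_)
    simp only [ff, smul_eval, mul_assoc]

theorem WE_eq (hN : N ≠ 0) (G : Gr (Tor L) ι) (β : ℝ) (Λ : Finset (Tor L)) (η : Conf N L)
    (c : Fin 3 → Fin N) (F : Alg (Tor L)) : WE hN G β Λ η c F =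
      (∫ q, ff G β Λ η c F q ∂((hh c).prod (prior N L))) / ZZ G β Λ η := rfl

theorem ZZ_pos (hN : N ≠ 0) (G : Gr (Tor L) ι) (β : ℝ) (Λ : Finset (Tor L)) (η : Conf N L) :
    0 < ZZ G β Λ η := Aux221.Z_pos hN G β Λ η

/-- the slices -/
theorem slice (hN : N ≠ 0) (G : Gr (Tor L) ι) (β : ℝ) (Λ : Finset (Tor L)) (η : Conf N L)
    (c : Fin 3 → Fin N) (F : Alg (Tor L)) (U : HG c) :
    ∫ S, ff G β Λ η c F (U, S) ∂(prior N L) =
      ∫ S, Aux221.wt G β c F (splice Λ S (Pool.Agent.Q218.ON.rotC (iso (U : OG N)) η))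
        ∂(prior N L) := by
  rw [← cov hN (iso (U : OG N)) Λ η (fun S => Aux221.wt G β c F S)]
  refine integral_congr_ae (Filter.Eventually.of_forall fun S => ?_)
  simp only [ff, Aux221.wt]
  rw [enG_rotC]

theorem ZZ_rot (hN : N ≠ 0) (G : Gr (Tor L) ι) (β : ℝ) (Λ : Finset (Tor L)) (η : Conf N L)
    (Q : EN N ≃ₗᵢ[ℝ] EN N) : ZZ G β Λ (Pool.Agent.Q218.ON.rotC Q η) = ZZ G β Λ η := by
  unfold ZZ
  rw [← cov hN Q Λ η (fun S => Real.exp (β * enG G S))]
  refine integral_congr_ae (Filter.Eventually.of_forall fun S => ?_)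
  simp only
  rw [enG_rotC]

theorem slice_gH (hN : N ≠ 0) (G : Gr (Tor L) ι) (β : ℝ) (Λ : Finset (Tor L)) (η : Conf N L)
    (c : Fin 3 → Fin N) (F : Alg (Tor L)) (U : HG c) :
    (∫ S, ff G β Λ η c F (U, S) ∂(prior N L)) / ZZ G β Λ η =
      gH (fun S => β * enG G S) Λ (Pool.Agent.Q218.ON.rotC (iso (U : OG N)) η)
        (fun S => eval (pt c S) F) := by
  rw [slice hN, Aux221.gH_eq, ← ZZ_rot hN G β Λ η (iso (U : OG N))]
  rfl

theorem WE_one (hN : N ≠ 0) (G : Gr (Tor L) ι) (β : ℝ) (Λ : Finset (Tor L)) (η : Conf N L)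
    (c : Fin 3 → Fin N) : WE hN G β Λ η c 1 = 1 := by
  haveI := hh_prob c
  haveI := prior_isProbabilityMeasure N L hN
  rw [WE_eq, integral_prod _ (int_prod hN (continuous_ff G β Λ η c 1))]
  have h1 : ∀ U : HG c, ∫ S, ff G β Λ η c 1 (U, S) ∂(prior N L) = ZZ G β Λ η := by
    intro U
    unfold ZZ ff
    simp
  simp only [h1, integral_const, probReal_univ, one_smul]
  exact div_self (ZZ_pos hN G β Λ η).ne'

theorem WE_pos (hN : N ≠ 0) (G : Gr (Tor L) ι) (β : ℝ) (Λ : Finset (Tor L)) (η : Conf N L)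
    (c : Fin 3 → Fin N) (hc : Function.Injective c) (F : Alg (Tor L))
    (hF : ∀ σ : Tor L × Fin 3 → ℝ,
      (∀ x, σ (x, 0) ^ 2 + σ (x, 1) ^ 2 + σ (x, 2) ^ 2 ≤ 1) → 0 ≤ eval σ F) :
    0 ≤ WE hN G β Λ η c F := by
  rw [WE_eq]
  refine div_nonneg (integral_nonneg fun S => ?_) (ZZ_pos hN G β Λ η).le
  exact mul_nonneg (hF _ fun x => GIB1.pt_le c hc _ x) (Real.exp_nonneg _)

theorem WE_ibp (hN : N ≠ 0) (G : Gr (Tor L) ι) (β : ℝ) (Λ : Finset (Tor L)) (η : Conf N L)
    (c : Fin 3 → Fin N) (hc : Function.Injective c) (x : Tor L) (hx : x ∈ Λ) (g : Fin 3)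
    (F : Alg (Tor L)) :
    WE hN G β Λ η c (D x g F) = WE hN G β Λ η c (S1 G β x g * F) := by
  haveI := hh_prob c
  haveI := prior_isProbabilityMeasure N L hN
  rw [← sub_eq_zero, ← map_sub, WE_eq,
    integral_prod _ (int_prod hN (continuous_ff G β Λ η c _))]
  have h1 : ∀ U : HG c, ∫ S, ff G β Λ η c (D x g F - S1 G β x g * F) (U, S) ∂(prior N L) = 0 := by
    intro U
    rw [slice hN]
    exact Aux221.key hN hc G β g x Λ _ hx F
  simp only [h1, integral_zero, zero_div]

/-- the averaged functional is a Gibbs functional -/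
def Wbar (hN : N ≠ 0) (G : Gr (Tor L) ι) (β : ℝ) (Λ : Finset (Tor L)) (η : Conf N L)
    (c : Fin 3 → Fin N) (hc : Function.Injective c) : WFun G β Λ :=
  ⟨WE hN G β Λ η c, WE_one hN G β Λ η c, WE_pos hN G β Λ η c hc, WE_ibp hN G β Λ η c hc⟩

theorem RX {V : Type} [Fintype V] [DecidableEq V] (g a : Fin 3) (x : V) :
    Pool.Agent.H717R2.ON3.R (fun _ : V => (1 : ℝ)) g (X (x, a)) =
      if a = g + 1 then -X (x, g + 2) else if a = g + 2 then X (x, g + 1) else 0 := by
  unfold Pool.Agent.H717R2.ON3.R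
  have h : ∀ (s : Finset V) (F : Alg V),
      (∑ y ∈ s, (1 : ℝ) • D y g) F = ∑ y ∈ s, D y g F := by
    intro s F
    induction s using Finset.induction_on with
    | empty => simp
    | insert y s hy ih =>
      rw [Finset.sum_insert hy, Finset.sum_insert hy, Derivation.add_apply, ih, one_smul]
  rw [h, Finset.sum_eq_single x]
  · unfold D
    rw [mkDerivation_X]
    simp
  · intro y _ hy
    unfold D
    rw [mkDerivation_X]
    simp [hy.symm]
  · intro hx
    exact absurd (Finset.mem_univ _) hx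

theorem path_deriv' {c : Fin 3 → Fin N} (hc : Function.Injective c) (g : Fin 3)
    (hpk : c (g + 1) ≠ c (g + 2)) (U : HG c) (S : Conf N L) (t : ℝ) (i : Tor L × Fin 3) :
    HasDerivAt (fun s => pt c (Pool.Agent.Q218.ON.rotC
        (iso ((rr c (g + 1) (g + 2) hpk s * U : HG c) : OG N)) S) i)
      (eval (pt c (Pool.Agent.Q218.ON.rotC
        (iso ((rr c (g + 1) (g + 2) hpk t * U : HG c) : OG N)) S))
        (Pool.Agent.H717R2.ON3.R (fun _ => 1) g (X i))) t := by
  obtain ⟨x, a⟩ := i
  rw [RX]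
  have h0 : ∀ (s : ℝ) (y : Tor L) (b : Fin 3), pt c (Pool.Agent.Q218.ON.rotC
      (iso ((rr c (g + 1) (g + 2) hpk s * U : HG c) : OG N)) S) (y, b) =
      rotF (c (g + 1)) (c (g + 2)) s (iso (U : OG N) (S y)) (c b) := by
    intro s y b
    unfold pt cc Pool.Agent.Q218.ON.rotC
    simp only
    rw [rot_coe, Subgroup.coe_mul, iso_mul, iso_rr]
  simp only [h0]
  set w : EN N := iso (U : OG N) (S x) with hw
  by_cases h1 : a = g + 1
  · subst h1
    simp only [if_true, rotF_p, map_neg, eval_X, h0, rotF_k hpk]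
    have := ((Real.hasDerivAt_cos t).mul_const (w (c (g + 1)))).sub
      ((Real.hasDerivAt_sin t).mul_const (w (c (g + 2))))
    refine this.congr_deriv ?_
    rw [← hw]
    ring
  · by_cases h2 : a = g + 2
    · subst h2
      simp only [h1, if_false, if_true, rotF_k hpk, eval_X, h0, rotF_p]
      have := ((Real.hasDerivAt_sin t).mul_const (w (c (g + 1)))).add
        ((Real.hasDerivAt_cos t).mul_const (w (c (g + 2))))
      refine this.congr_deriv ?_
      rw [← hw]
      ring
    · simp only [h1, h2, if_false, map_zero]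
      have h3 : c a ≠ c (g + 1) := fun h => h1 (hc h)
      have h4 : c a ≠ c (g + 2) := fun h => h2 (hc h)
      simp only [rotF_o h3 h4]
      exact hasDerivAt_const _ _

/-- invariance of the averaged functional -/
theorem WE_inv (hN : N ≠ 0) (G : Gr (Tor L) ι) (β : ℝ) (Λ : Finset (Tor L)) (η : Conf N L)
    {c : Fin 3 → Fin N} (hc : Function.Injective c) (g : Fin 3) (F : Alg (Tor L)) :
    WE hN G β Λ η c (Pool.Agent.H717R2.ON3.R (fun _ => 1) g F) = 0 := by
  haveI := hh_prob c
  haveI := prior_isProbabilityMeasure N L hN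
  have hpk : c (g + 1) ≠ c (g + 2) := fun h => GIB1.fin3_ne g (hc h)
  set P : Alg (Tor L) := Pool.Agent.H717R2.ON3.R (fun _ => 1) g F with hP
  obtain ⟨C, hC⟩ := bdd_prod (continuous_ff G β Λ η c P)
  have hcont : ∀ (H : Alg (Tor L)) (r : HG c),
      Continuous fun q : HG c × Conf N L => ff G β Λ η c H (r * q.1, q.2) := fun H r =>
    (continuous_ff G β Λ η c H).comp
      ((continuous_const.mul continuous_fst).prodMk continuous_snd)
  have hd := hasDerivAt_integral_of_dominated_loc_of_deriv_le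
    (μ := (hh c).prod (prior N L))
    (F := fun (t : ℝ) (q : HG c × Conf N L) =>
      ff G β Λ η c F (rr c (g + 1) (g + 2) hpk t * q.1, q.2))
    (F' := fun (t : ℝ) (q : HG c × Conf N L) =>
      ff G β Λ η c P (rr c (g + 1) (g + 2) hpk t * q.1, q.2)) (x₀ := 0) (s := Set.univ)
    (bound := fun _ => C)
    Filter.univ_mem
    (Filter.Eventually.of_forall fun t => (hcont F _).measurable.aestronglyMeasurable)
    (int_prod hN (hcont F _))
    (hcont P _).measurable.aestronglyMeasurable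
    (Filter.Eventually.of_forall fun S t _ => hC _)
    (integrable_const C)
    (Filter.Eventually.of_forall fun q t _ => by
      unfold ff
      simp only
      exact (eval_deriv' _ (fun s => pt c (Pool.Agent.Q218.ON.rotC
        (iso ((rr c (g + 1) (g + 2) hpk s * q.1 : HG c) : OG N)) (splice Λ q.2 η))) t
        (path_deriv' hc g hpk q.1 (splice Λ q.2 η) t) F).mul_const _)
  have h2 := hd.2
  simp only [left_inv hN (continuous_ff G β Λ η c F), left_inv hN (continuous_ff G β Λ η c P)]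
    at h2
  rw [WE_eq, h2.unique (hasDerivAt_const _ _), zero_div]

end Pool.Agent.H36.MG
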